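import Mathlib

set_option autoImplicit false

namespace Pool.Agent.Helper71_F2

open Polynomial

/-- The polynomial over `𝔽₂` whose coefficient of `X ^ i` is the `i`-th binary digit of `n`. -/
noncomputable def toPoly (n : ℕ) : (ZMod 2)[X] :=
  ∑ i ∈ Finset.range n.size, if n.testBit i then X ^ i else 0

theorem coeff_toPoly (n i : ℕ) :
    (toPoly n).coeff i = if n.testBit i then 1 else 0 := by
  unfold toPoly
  rw [Polynomial.finset_sum_coeff]
  have h : ∀ j ∈ Finset.range n.size,
      (if n.testBit j then (X ^ j : (ZMod 2)[X]) else 0).coeff i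
        = if j = i then (if n.testBit i then 1 else 0) else 0 := by
    intro j _
    by_cases hji : j = i
    · subst hji
      by_cases hb : n.testBit j <;> simp [hb]
    · by_cases hb : n.testBit j <;> simp [hb, hji, Polynomial.coeff_X_pow, Ne.symm hji]
  rw [Finset.sum_congr rfl h, Finset.sum_ite_eq']
  by_cases hi : i ∈ Finset.range n.size
  · simp [hi]
  · have : n.testBit i = false := by
      apply Nat.testBit_eq_false_of_lt
      rw [Finset.mem_range, not_lt] at hi
      exact Nat.size_le.mp hi
    simp [this]

theorem toPoly_xor (a b : ℕ) : toPoly (a ^^^ b) = toPoly a + toPoly b := by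
  ext i
  rw [Polynomial.coeff_add, coeff_toPoly, coeff_toPoly, coeff_toPoly, Nat.testBit_xor]
  cases a.testBit i <;> cases b.testBit i <;> simp <;> decide

theorem toPoly_shiftLeft (a k : ℕ) : toPoly (a <<< k) = X ^ k * toPoly a := by
  ext i
  rw [coeff_toPoly, Polynomial.coeff_X_pow_mul', coeff_toPoly, Nat.testBit_shiftLeft]
  by_cases h : k ≤ i <;> simp [h]

/-- xor of the shifts of `P` by the members of a list of exponents. -/
def shiftXor (P : ℕ) : List ℕ → ℕ
  | [] => 0
  | e :: l => (P <<< e) ^^^ shiftXor P l

theorem toPoly_zero : toPoly 0 = 0 := by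
  simp [toPoly]

theorem toPoly_shiftXor (P : ℕ) (l : List ℕ) :
    toPoly (shiftXor P l) = (l.map (fun e => (X : (ZMod 2)[X]) ^ e)).sum * toPoly P := by
  induction l with
  | nil => simp [shiftXor, toPoly_zero]
  | cons e l ih =>
    rw [shiftXor, toPoly_xor, toPoly_shiftLeft, ih, List.map_cons, List.sum_cons, add_mul]

/-- the number of binary digits `1` of `n` among the lowest `2 ^ k`. -/
def popc : ℕ → ℕ → ℕ
  | 0, n => n % 2
  | k + 1, n => popc k (n % 2 ^ 2 ^ k) + popc k (n >>> 2 ^ k)

theorem popc_eq (k n : ℕ) (hn : n < 2 ^ 2 ^ k) :
    popc k n = ((Finset.range (2 ^ k)).filter (fun i => n.testBit i = true)).card := by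
  induction k generalizing n with
  | zero =>
    have : n = 0 ∨ n = 1 := by
      simp at hn
      omega
    rcases this with rfl | rfl
    · simp [popc]
    · simp [popc, Finset.filter_singleton]
  | succ k ih =>
    rw [popc, ih _ (Nat.mod_lt _ (by positivity)), ih (n >>> 2 ^ k)]
    · have hsplit : Finset.range (2 ^ (k + 1))
          = Finset.range (2 ^ k) ∪ (Finset.range (2 ^ k)).map (addLeftEmbedding (2 ^ k)) := by
        ext i
        simp only [Finset.mem_range, Finset.mem_union, Finset.mem_map, addLeftEmbedding_apply]
        constructor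
        · intro hi
          by_cases h : i < 2 ^ k
          · exact Or.inl h
          · refine Or.inr ⟨i - 2 ^ k, ?_, by omega⟩
            rw [pow_succ] at hi
            omega
        · rintro (h | ⟨j, hj, rfl⟩)
          · rw [pow_succ]; omega
          · rw [pow_succ]; omega
      rw [hsplit, Finset.filter_union, Finset.card_union_of_disjoint]
      · congr 1
        · apply congrArg
          apply Finset.filter_congr
          intro i hi
          rw [Finset.mem_range] at hi
          rw [Nat.testBit_mod_two_pow]
          simp [hi]
        · rw [Finset.filter_map, Finset.card_map]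
          apply congrArg
          apply Finset.filter_congr
          intro i _
          simp [Nat.testBit_shiftRight]
      · rw [Finset.disjoint_left]
        intro i hi hi'
        simp only [Finset.mem_filter, Finset.mem_range, Finset.mem_map,
          addLeftEmbedding_apply] at hi hi'
        obtain ⟨⟨j, _, rfl⟩, _⟩ := hi'
        omega
    · rw [Nat.shiftRight_eq_div_pow]
      apply Nat.div_lt_of_lt_mul
      rw [← pow_add, ← two_mul, ← pow_succ']
      exact hn

theorem card_support_toPoly (k n : ℕ) (hn : n < 2 ^ 2 ^ k) :
    (toPoly n).support.card = popc k n := by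
  rw [popc_eq k n hn]
  congr 1
  ext i
  rw [Polynomial.mem_support_iff, coeff_toPoly, Finset.mem_filter, Finset.mem_range]
  constructor
  · intro h
    have hb : n.testBit i = true := by
      by_contra hb
      exact h (by simp [hb])
    refine ⟨?_, hb⟩
    by_contra hlt
    rw [not_lt] at hlt
    have : n.testBit i = false :=
      Nat.testBit_eq_false_of_lt (lt_of_lt_of_le hn (Nat.pow_le_pow_right (by norm_num) hlt))
    rw [this] at hb
    exact absurd hb (by simp)
  · rintro ⟨_, hb⟩
    simp [hb]

end Pool.Agent.Helper71_F2
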